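import Pool.Agent.PCO.StmtsP

/-!
# PCO, row TOP: the edge face fills the space
-/

set_option autoImplicit false

open Matrix Filter Topology

namespace Pool.Agent.PCO.H49

open Pool.Agent.PFS Pool.Agent.PFJ Pool.Agent.PCO

theorem top (hEXK : ExkStmt) : TopStmt := by
  intro n C Γ h K' hK' hmax w hw h3 hn
  obtain ⟨L, W, β, hbox, htop⟩ := hEXK n C Γ h K' hK' hmax w hw h3 hn
  obtain ⟨v', -, -, hv'⟩ := PFJ.H82.fibF n C Γ h (K' + 1) (by omega) hmax L W β hbox (by
    rintro W' ⟨e, he1, he2, _⟩ _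
    have h1 : Module.finrank ℝ W' = n := by
      rw [← he2, finrank_span_eq_card he1, Fintype.card_fin, htop, finrank_top,
        Module.finrank_fin_fun]
    have h2 : W' = ⊤ := Submodule.eq_top_of_finrank_eq (by rw [h1, Module.finrank_fin_fun])
    intro q _ _ _ y _
    rw [h2]; trivial)
  exact ⟨v', hv'⟩

end Pool.Agent.PCO.H49
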